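import Mathlib.RingTheory.MvPolynomial.Homogeneous
import Mathlib.RingTheory.Ideal.Height

/-!
Definitions: Stanley–Reisner ideals, symbolic powers, graded Tor against the residue field
(computed by the Koszul complex on the variables), level algebras.
-/

namespace Pool.Agent.MP_d6b0b9_al

open MvPolynomial

variable {k : Type*} [Field k] {n : ℕ}

/-- `Δ` is the set of independent sets of a matroid on `Fin n`. -/
structure IsMatroidComplex (Δ : Set (Finset (Fin n))) : Prop where
  empty_mem : ∅ ∈ Δ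
  down_closed : ∀ F ∈ Δ, ∀ G ⊆ F, G ∈ Δ
  exchange : ∀ F ∈ Δ, ∀ G ∈ Δ, F.card < G.card → ∃ v ∈ G \ F, insert v F ∈ Δ

/-- A circuit is a minimal non-face. -/
def IsCircuit (Δ : Set (Finset (Fin n))) (C : Finset (Fin n)) : Prop :=
  Minimal (fun F => F ∉ Δ) C

/-- The Stanley–Reisner ideal, generated by the `x_F` with `F` a non-face. -/
noncomputable def srIdeal (k : Type*) [Field k] (Δ : Set (Finset (Fin n))) :
    Ideal (MvPolynomial (Fin n) k) :=
  Ideal.span {p | ∃ F, F ∉ Δ ∧ p = ∏ i ∈ F, X i}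

/-- The intersection of the `m`-th powers of the minimal primes of `I`. -/
noncomputable def symbPow (I : Ideal (MvPolynomial (Fin n) k)) (m : ℕ) :
    Ideal (MvPolynomial (Fin n) k) :=
  ⨅ P ∈ I.minimalPrimes, P ^ m

/-- The differential of the Koszul complex `K(x_1, ..., x_n; R/J)`; a chain `f` stands for
the sum of the `f T * e_T`. -/
noncomputable def koszulD (J : Ideal (MvPolynomial (Fin n) k))
    (f : Finset (Fin n) → MvPolynomial (Fin n) k ⧸ J) (S : Finset (Fin n)) :
    MvPolynomial (Fin n) k ⧸ J :=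
  ∑ t ∈ Sᶜ, (-1) ^ (S.filter (· < t)).card * Ideal.Quotient.mk J (X t) * f (insert t S)

/-- `f` lies in `K_i(x; R/J)` and is homogeneous of internal degree `j`, where `e_T` has
degree `T.card`. -/
def IsChain (J : Ideal (MvPolynomial (Fin n) k)) (i j : ℕ)
    (f : Finset (Fin n) → MvPolynomial (Fin n) k ⧸ J) : Prop :=
  ∀ T, f T = 0 ∨ (T.card = i ∧ ∃ (d : ℕ) (p : MvPolynomial (Fin n) k),
    i + d = j ∧ p.IsHomogeneous d ∧ Ideal.Quotient.mk J p = f T)

/-- `Tor_i^R(R/J, k)_j = H_i(x; R/J)_j` is zero. -/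
def TorVanishes (J : Ideal (MvPolynomial (Fin n) k)) (i j : ℕ) : Prop :=
  ∀ f, IsChain J i j f → koszulD J f = 0 → ∃ g, IsChain J (i + 1) j g ∧ koszulD J g = f

/-- `J` is homogeneous of height `c`, `R/J` is Cohen–Macaulay (projective dimension at most
`c`), and `Tor_c^R(R/J, k)` is concentrated in a single degree. -/
def IsLevel (J : Ideal (MvPolynomial (Fin n) k)) : Prop :=
  (∀ p ∈ J, ∀ d, homogeneousComponent d p ∈ J) ∧
  ∃ c : ℕ, J.height = c ∧ (∀ i, c < i → ∀ j, TorVanishes J i j) ∧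
    ∃ j₀, ¬ TorVanishes J c j₀ ∧ ∀ j, j ≠ j₀ → TorVanishes J c j

end Pool.Agent.MP_d6b0b9_al
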