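import Mathlib.Algebra.MvPolynomial.Monad
import Mathlib.RingTheory.SimpleRing.Principal
import Mathlib.Order.CompletePartialOrder
import Mathlib.RingTheory.MvPolynomial.Ideal
import Mathlib.RingTheory.Henselian
import Mathlib.RingTheory.MvPolynomial.IrreducibleQuadratic
import Mathlib.RingTheory.RegularLocalRing.Defs
import Pool.Agent.MP_d6b0b9_al.Defs

-- ======== part 0: formerly Pool.Agent.MP_d6b0b9_al.Comb
section MrgPart0

/-!
Exactness of multigraded strands of Koszul complexes attached to up-closed families of finite sets.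
-/

namespace Pool.Agent.MP_d6b0b9_al

open Finset

variable {k : Type*} [Field k] {α : Type*} [LinearOrder α]

/-- The Koszul sign. -/
def sgn (k : Type*) [Field k] (S : Finset α) (t : α) : k := (-1) ^ (S.filter (· < t)).card

lemma sgn_mul_self (S : Finset α) (t : α) : sgn k S t * sgn k S t = 1 := by
  unfold sgn
  rw [← mul_pow]; simp

lemma sgn_insert {S : Finset α} {e t : α} (he : e ∉ S) :
    sgn k (insert e S) t = (if e < t then -1 else 1) * sgn k S t := by
  unfold sgn
  rw [Finset.filter_insert]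
  split_ifs with h
  · rw [Finset.card_insert_of_notMem (by simp [he]), pow_succ]; ring
  · simp

lemma sgn_anti {S : Finset α} {e t : α} (he : e ∉ S) (ht : t ∉ S) (hne : e ≠ t) :
    sgn k (insert e S) t * sgn k (insert t S) e = - (sgn k S e * sgn k S t) := by
  rw [sgn_insert he, sgn_insert ht]
  rcases lt_or_gt_of_ne hne with h | h
  · rw [if_pos h, if_neg (not_lt.mpr h.le)]; ring
  · rw [if_neg (not_lt.mpr h.le), if_pos h]; ring

/-- The differential of the strand on the ground set `S`. -/
def dd (S : Finset α) (z : Finset α → k) (ρ : Finset α) : k :=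
  ∑ t ∈ S \ ρ, sgn k ρ t * z (insert t ρ)

/-- Exactness in homological degree `i` of the strand with basis the members of `U` inside `S`. -/
def Exa (k : Type*) [Field k] (S : Finset α) (U : Finset α → Prop) (i : ℕ) : Prop :=
  ∀ z : Finset α → k, (∀ ρ ⊆ S, ρ.card + 1 = i → U ρ → dd S z ρ = 0) →
    ∃ w : Finset α → k, ∀ τ ⊆ S, τ.card = i → U τ → z τ = dd S w τ

lemma dd_split {S : Finset α} {e : α} (he : e ∈ S) (z : Finset α → k) {ρ : Finset α}
    (hρ : e ∉ ρ) : dd S z ρ = sgn k ρ e * z (insert e ρ) + dd (S.erase e) z ρ := by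
  unfold dd
  have h1 : e ∈ S \ ρ := by simp [he, hρ]
  rw [← Finset.add_sum_erase _ _ h1]
  congr 2
  ext x; simp; tauto

lemma dd_insert {S : Finset α} {e : α} (z : Finset α → k) {ρ : Finset α}
    (hρ : e ∉ ρ) : dd S z (insert e ρ) =
      - (sgn k ρ e * dd (S.erase e) (fun τ => sgn k τ e * z (insert e τ)) ρ) := by
  unfold dd
  have h1 : S \ insert e ρ = S.erase e \ ρ := by ext x; simp; tauto
  rw [h1, Finset.mul_sum, ← Finset.sum_neg_distrib]
  refine Finset.sum_congr rfl fun t ht => ?_
  have ht' : t ∉ ρ := (Finset.mem_sdiff.mp ht).2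
  have hne : e ≠ t := fun h => by
    have := (Finset.mem_sdiff.mp ht).1
    simp [h] at this
  have h2 := sgn_anti (k := k) hρ ht' hne
  have h3 := sgn_mul_self (k := k) (insert t ρ) e
  rw [Finset.insert_comm t e ρ]
  calc sgn k (insert e ρ) t * z (insert e (insert t ρ))
      = (sgn k (insert e ρ) t * sgn k (insert t ρ) e) * sgn k (insert t ρ) e
          * z (insert e (insert t ρ)) := by rw [mul_assoc (sgn k (insert e ρ) t), h3, mul_one]
    _ = _ := by rw [h2]; ring

lemma exa_of_void {S : Finset α} {U : Finset α → Prop} {i : ℕ}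
    (h : ∀ τ ⊆ S, τ.card = i → ¬ U τ) : Exa k S U i :=
  fun _ _ => ⟨fun _ => 0, fun τ hτ hc hU => absurd hU (h τ hτ hc)⟩

lemma exa_cone {S : Finset α} {U : Finset α → Prop} {e : α} (he : e ∈ S)
    (h : ∀ τ ⊆ S, e ∉ τ → U (insert e τ) → U τ) (i : ℕ) : Exa k S U i := by
  intro z hz
  refine ⟨fun τ => if e ∈ τ then sgn k (τ.erase e) e * z (τ.erase e) else 0, ?_⟩
  intro τ hτ hc hU
  by_cases heτ : e ∈ τ
  · obtain ⟨ρ, hρ, rfl⟩ : ∃ ρ, e ∉ ρ ∧ τ = insert e ρ :=
      ⟨τ.erase e, by simp, by simp [heτ]⟩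
    have hρS : ρ ⊆ S := (Finset.subset_insert e ρ).trans hτ
    have h0 := hz ρ hρS (by rw [← hc, Finset.card_insert_of_notMem hρ]) (h ρ hρS hρ hU)
    rw [dd_split he z hρ] at h0
    rw [dd_insert _ hρ]
    have h1 : dd (S.erase e) (fun τ => sgn k τ e *
        (if e ∈ insert e τ then sgn k ((insert e τ).erase e) e * z ((insert e τ).erase e)
          else 0)) ρ = dd (S.erase e) z ρ := by
      unfold dd
      refine Finset.sum_congr rfl fun t ht => ?_
      have hne : t ≠ e := fun h => by
        have := (Finset.mem_sdiff.mp ht).1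
        simp [h] at this
      have : e ∉ insert t ρ := by simp [hρ, hne.symm]
      simp only [Finset.mem_insert_self, if_true, Finset.erase_insert this]
      rw [← mul_assoc (sgn k (insert t ρ) e), sgn_mul_self, one_mul]
    rw [h1]
    have h2 : dd (S.erase e) z ρ = - (sgn k ρ e * z (insert e ρ)) := by linear_combination h0
    rw [h2, mul_neg, neg_neg, ← mul_assoc, sgn_mul_self, one_mul]
  · rw [dd_split he _ heτ]
    have h1 : dd (S.erase e)
        (fun τ => if e ∈ τ then sgn k (τ.erase e) e * z (τ.erase e) else 0) τ = 0 := by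
      unfold dd
      refine Finset.sum_eq_zero fun t ht => ?_
      have hne : t ≠ e := fun h => by
        have := (Finset.mem_sdiff.mp ht).1
        simp [h] at this
      have : e ∉ insert t τ := by simp [heτ, hne.symm]
      simp [this]
    rw [h1]
    simp only [Finset.mem_insert_self, if_true, Finset.erase_insert heτ, add_zero]
    rw [← mul_assoc, sgn_mul_self, one_mul]

lemma dd_dd (S : Finset α) (w : Finset α → k) (ρ : Finset α) : dd S (dd S w) ρ = 0 := by
  unfold dd
  have h1 : ∀ t ∈ S \ ρ, sgn k ρ t * ∑ s ∈ S \ insert t ρ,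
      sgn k (insert t ρ) s * w (insert s (insert t ρ)) =
      ∑ s ∈ S \ ρ, if s = t then 0 else
        sgn k ρ t * sgn k (insert t ρ) s * w (insert s (insert t ρ)) := by
    intro t ht
    have : S \ insert t ρ = (S \ ρ).erase t := by ext x; simp; tauto
    rw [this, Finset.mul_sum, ← Finset.add_sum_erase _ _ ht]
    simp only [if_true, zero_add]
    refine Finset.sum_congr rfl fun s hs => ?_
    rw [if_neg (Finset.ne_of_mem_erase hs), mul_assoc]
  rw [Finset.sum_congr rfl h1, ← Finset.sum_product']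
  refine Finset.sum_involution (fun p _ => p.swap) ?_ ?_ ?_ ?_
  · rintro ⟨t, s⟩ hp
    obtain ⟨ht, hs⟩ := Finset.mem_product.mp hp
    by_cases hst : s = t
    · simp [hst]
    · simp only [Prod.swap_prod_mk]
      rw [if_neg hst, if_neg (Ne.symm hst), Finset.insert_comm s t ρ]
      have ht' : t ∉ ρ := (Finset.mem_sdiff.mp ht).2
      have hs' : s ∉ ρ := (Finset.mem_sdiff.mp hs).2
      rw [sgn_insert ht', sgn_insert hs']
      rcases lt_or_gt_of_ne hst with h | h
      · rw [if_pos h, if_neg (not_lt.mpr h.le)]; ring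
      · rw [if_neg (not_lt.mpr h.le), if_pos h]; ring
  · rintro ⟨t, s⟩ _ hne h
    simp only [Prod.swap_prod_mk, Prod.mk.injEq] at h
    simp [h.1] at hne
  · rintro ⟨t, s⟩ hp
    obtain ⟨ht, hs⟩ := Finset.mem_product.mp hp
    exact Finset.mem_product.mpr ⟨hs, ht⟩
  · rintro ⟨t, s⟩ _
    rfl

lemma dd_sub (S : Finset α) (z w : Finset α → k) (ρ : Finset α) :
    dd S (fun τ => z τ - w τ) ρ = dd S z ρ - dd S w ρ := by
  unfold dd
  rw [← Finset.sum_sub_distrib]
  exact Finset.sum_congr rfl fun t _ => by ring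

lemma dd_add (S : Finset α) (z w : Finset α → k) (ρ : Finset α) :
    dd S (fun τ => z τ + w τ) ρ = dd S z ρ + dd S w ρ := by
  unfold dd
  rw [← Finset.sum_add_distrib]
  exact Finset.sum_congr rfl fun t _ => by ring

/-- The long exact sequence step. -/
lemma exa_step {S : Finset α} {U : Finset α → Prop} {e : α} (he : e ∈ S) {i : ℕ}
    (hup : ∀ τ ⊆ S, e ∉ τ → U τ → U (insert e τ))
    (h0 : Exa k (S.erase e) U (i + 1))
    (h1 : Exa k (S.erase e) (fun τ => U (insert e τ)) i) : Exa k S U (i + 1) := by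
  intro z hz
  obtain ⟨w1, hw1⟩ := h1 (fun τ => sgn k τ e * z (insert e τ)) (by
    intro ρ hρ hc hU
    have heρ : e ∉ ρ := fun h => by simpa using hρ h
    have hsub : insert e ρ ⊆ S := Finset.insert_subset he (hρ.trans (Finset.erase_subset _ _))
    have := hz (insert e ρ) hsub (by rw [Finset.card_insert_of_notMem heρ, hc]) hU
    rw [dd_insert _ heρ, neg_eq_zero] at this
    have h3 := sgn_mul_self (k := k) ρ e
    calc _ = (sgn k ρ e * sgn k ρ e) *
          dd (S.erase e) (fun τ => sgn k τ e * z (insert e τ)) ρ := by rw [h3, one_mul]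
      _ = 0 := by rw [mul_assoc, this, mul_zero])
  set v : Finset α → k := fun τ => if e ∈ τ then - (sgn k (τ.erase e) e * w1 (τ.erase e)) else 0
    with hv
  have hvz : ∀ ρ ⊆ S.erase e, ρ.card = i → U (insert e ρ) →
      z (insert e ρ) = dd S v (insert e ρ) := by
    intro ρ hρ hc hU
    have heρ : e ∉ ρ := fun h => by simpa using hρ h
    rw [dd_insert _ heρ]
    have h2 : dd (S.erase e) (fun τ => sgn k τ e * v (insert e τ)) ρ = - dd (S.erase e) w1 ρ := by
      unfold dd
      rw [← Finset.sum_neg_distrib]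
      refine Finset.sum_congr rfl fun t ht => ?_
      have hne : t ≠ e := fun h => by
        have := (Finset.mem_sdiff.mp ht).1
        simp [h] at this
      have : e ∉ insert t ρ := by simp [heρ, hne.symm]
      simp only [hv, Finset.mem_insert_self, if_true, Finset.erase_insert this]
      rw [mul_neg, ← mul_assoc (sgn k (insert t ρ) e), sgn_mul_self, one_mul, mul_neg]
    rw [h2, ← hw1 ρ hρ hc hU, mul_neg, neg_neg, ← mul_assoc, sgn_mul_self, one_mul]
  obtain ⟨w0, hw0⟩ := h0 (fun τ => z τ - dd S v τ) (by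
    intro ρ hρ hc hU
    have heρ : e ∉ ρ := fun h => by simpa using hρ h
    have hρS : ρ ⊆ S := hρ.trans (Finset.erase_subset _ _)
    have h2 := dd_split he (fun τ => z τ - dd S v τ) heρ
    rw [dd_sub, hz ρ hρS hc hU, dd_dd, ← hvz ρ hρ (by omega) (hup ρ hρS heρ hU)] at h2
    simpa using h2.symm)
  refine ⟨fun τ => v τ + (if e ∈ τ then 0 else w0 τ), ?_⟩
  intro τ hτ hc hU
  rw [dd_add]
  by_cases heτ : e ∈ τ
  · obtain ⟨ρ, hρ, rfl⟩ : ∃ ρ, e ∉ ρ ∧ τ = insert e ρ :=
      ⟨τ.erase e, by simp, by simp [heτ]⟩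
    have hρS : ρ ⊆ S.erase e := fun x hx =>
      Finset.mem_erase.mpr ⟨fun h => hρ (h ▸ hx), hτ (Finset.mem_insert_of_mem hx)⟩
    rw [hvz ρ hρS (by rw [Finset.card_insert_of_notMem hρ] at hc; omega) hU]
    have : dd S (fun τ => if e ∈ τ then 0 else w0 τ) (insert e ρ) = 0 := by
      unfold dd
      exact Finset.sum_eq_zero fun t _ => by simp
    rw [this, add_zero]
  · have hτS : τ ⊆ S.erase e := fun x hx =>
      Finset.mem_erase.mpr ⟨fun h => heτ (h ▸ hx), hτ hx⟩
    have h2 := hw0 τ hτS hc hU
    rw [dd_split he (fun τ => if e ∈ τ then 0 else w0 τ) heτ]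
    have h3 : dd (S.erase e) (fun τ => if e ∈ τ then 0 else w0 τ) τ = dd (S.erase e) w0 τ := by
      unfold dd
      refine Finset.sum_congr rfl fun t ht => ?_
      have hne : t ≠ e := fun h => by
        have := (Finset.mem_sdiff.mp ht).1
        simp [h] at this
      have : e ∉ insert t τ := by simp [heτ, hne.symm]
      simp [this]
    rw [h3, ← h2]
    simp

end Pool.Agent.MP_d6b0b9_al

end MrgPart0

-- ======== part 1: formerly Pool.Agent.MP_d6b0b9_al.Mat
section MrgPart1

/-!
Vanishing for matroid complexes, and the analysis of the strands of the second symbolic power.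
-/

namespace Pool.Agent.MP_d6b0b9_al

open Finset

variable {k : Type*} [Field k] {α : Type*} [LinearOrder α]

lemma Exa.congr {S : Finset α} {U U' : Finset α → Prop} {i : ℕ} (h : Exa k S U i)
    (hU : ∀ τ ⊆ S, U τ ↔ U' τ) : Exa k S U' i := by
  intro z hz
  obtain ⟨w, hw⟩ := h z (fun ρ hρ hc hu => hz ρ hρ hc ((hU ρ hρ).mp hu))
  exact ⟨w, fun τ hτ hc hu => hw τ hτ hc ((hU τ hτ).mpr hu)⟩

/-- Down-closed on subsets of `S`. -/
def Down (S : Finset α) (D : Finset α → Prop) : Prop :=
  ∀ σ ⊆ S, ∀ σ' ⊆ σ, D σ → D σ'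

/-- Exchange property on subsets of `S`. -/
def Exch (S : Finset α) (D : Finset α → Prop) : Prop :=
  ∀ σ ⊆ S, ∀ σ' ⊆ S, D σ → D σ' → σ.card < σ'.card → ∃ v ∈ σ', v ∉ σ ∧ D (insert v σ)

lemma Exch.extend {S : Finset α} {D : Finset α → Prop} (hE : Exch S D) {σ' : Finset α}
    (hσ' : σ' ⊆ S) (hD' : D σ') : ∀ (m : ℕ) (σ : Finset α), σ ⊆ S → D σ →
      σ'.card ≤ σ.card + m → ∃ F, σ ⊆ F ∧ F ⊆ σ ∪ σ' ∧ D F ∧ σ'.card ≤ F.card := by
  intro m
  induction m with
  | zero => exact fun σ _ hD h => ⟨σ, subset_rfl, Finset.subset_union_left, hD, by simpa using h⟩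
  | succ m ih =>
    intro σ hσ hD h
    by_cases hlt : σ.card < σ'.card
    · obtain ⟨v, hv, hvσ, hDv⟩ := hE σ hσ σ' hσ' hD hD' hlt
      obtain ⟨F, h1, h2, h3, h4⟩ := ih (insert v σ) (Finset.insert_subset (hσ' hv) hσ) hDv
        (by rw [Finset.card_insert_of_notMem hvσ]; omega)
      refine ⟨F, (Finset.subset_insert _ _).trans h1, h2.trans ?_, h3, h4⟩
      intro x hx
      simp only [Finset.mem_union, Finset.mem_insert] at hx ⊢
      rcases hx with (rfl | hx) | hx
      · exact Or.inr hv
      · exact Or.inl hx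
      · exact Or.inr hx
    · exact ⟨σ, subset_rfl, Finset.subset_union_left, hD, not_lt.mp hlt⟩

lemma Exch.extend' {S : Finset α} {D : Finset α → Prop} (hE : Exch S D) {σ σ' : Finset α}
    (hσ : σ ⊆ S) (hσ' : σ' ⊆ S) (hD : D σ) (hD' : D σ') :
    ∃ F, σ ⊆ F ∧ F ⊆ σ ∪ σ' ∧ D F ∧ σ'.card ≤ F.card :=
  hE.extend hσ' hD' σ'.card σ hσ hD (by omega)

lemma exa_cone' {S : Finset α} {D : Finset α → Prop} {e : α} (he : e ∈ S)
    (h : ∀ σ ⊆ S, e ∉ σ → D σ → D (insert e σ)) (i : ℕ) :
    Exa k S (fun τ => D (S \ τ)) i := by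
  refine exa_cone he (fun τ hτ heτ hU => ?_) i
  have h1 : S \ τ = insert e (S \ insert e τ) := by
    ext x; simp only [Finset.mem_sdiff, Finset.mem_insert]
    constructor
    · rintro ⟨h1, h2⟩
      by_cases hx : x = e
      · exact Or.inl hx
      · exact Or.inr ⟨h1, by tauto⟩
    · rintro (rfl | ⟨h1, h2⟩)
      · exact ⟨he, heτ⟩
      · exact ⟨h1, by tauto⟩
  show D (S \ τ)
  rw [h1]
  exact h _ Finset.sdiff_subset (by simp) hU

theorem exa_matroid : ∀ (m : ℕ) (S : Finset α) (D : Finset α → Prop) (i : ℕ), S.card = m →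
    Down S D → Exch S D → (∃ σ ⊆ S, D σ ∧ S.card < i + σ.card) →
    Exa k S (fun τ => D (S \ τ)) i := by
  intro m
  induction m with
  | zero =>
    rintro S D i hS - - ⟨σ, hσ, -, hlt⟩
    refine exa_of_void fun τ hτ hc _ => ?_
    have h1 := Finset.card_le_card hτ
    have h2 := Finset.card_le_card hσ
    omega
  | succ m ih =>
    rintro S D i hS hD hE ⟨σ, hσ, hDσ, hlt⟩
    obtain ⟨e, he⟩ : S.Nonempty := Finset.card_pos.mp (by omega)
    have hσc := Finset.card_le_card hσ
    obtain ⟨i, rfl⟩ : ∃ j, i = j + 1 := ⟨i - 1, by omega⟩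
    have hS' : (S.erase e).card = m := by rw [Finset.card_erase_of_mem he]; omega
    by_cases hcone : ∀ ρ ⊆ S, e ∉ ρ → D ρ → D (insert e ρ)
    · exact exa_cone' he hcone _
    push Not at hcone
    obtain ⟨ρ, hρ, heρ, hDρ, hnρ⟩ := hcone
    refine exa_step he ?_ ?_ ?_
    · intro τ hτ _ hU
      exact hD _ Finset.sdiff_subset _
        (Finset.sdiff_subset_sdiff subset_rfl (Finset.subset_insert _ _)) hU
    · have hcongr : ∀ τ ⊆ S.erase e, D (insert e (S.erase e \ τ)) ↔ D (S \ τ) := by
        intro τ hτ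
        have heτ : e ∉ τ := fun h => by simpa using hτ h
        have : insert e (S.erase e \ τ) = S \ τ := by
          ext x; simp only [Finset.mem_sdiff, Finset.mem_insert, Finset.mem_erase]
          constructor
          · rintro (rfl | ⟨⟨_, h1⟩, h2⟩)
            · exact ⟨he, heτ⟩
            · exact ⟨h1, h2⟩
          · rintro ⟨h1, h2⟩
            by_cases hx : x = e
            · exact Or.inl hx
            · exact Or.inr ⟨⟨hx, h1⟩, h2⟩
        rw [this]
      by_cases hloop : D {e}
      · refine Exa.congr (ih (S.erase e) (fun σ => D (insert e σ)) (i + 1) hS' ?_ ?_ ?_) hcongr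
        · intro a ha b hb hDa
          exact hD _ (Finset.insert_subset he (ha.trans (Finset.erase_subset _ _))) _
            (Finset.insert_subset_insert _ hb) hDa
        · intro a ha b hb hDa hDb hab
          have hea : e ∉ a := fun h => by simpa using ha h
          have heb : e ∉ b := fun h => by simpa using hb h
          obtain ⟨v, hv, hva, hDv⟩ := hE _
            (Finset.insert_subset he (ha.trans (Finset.erase_subset _ _))) _
            (Finset.insert_subset he (hb.trans (Finset.erase_subset _ _))) hDa hDb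
            (by rw [Finset.card_insert_of_notMem hea, Finset.card_insert_of_notMem heb]; omega)
          simp only [Finset.mem_insert, not_or] at hv hva
          refine ⟨v, hv.resolve_left hva.1, hva.2, ?_⟩
          rwa [Finset.insert_comm] at hDv
        · obtain ⟨F, h1, h2, h3, h4⟩ := hE.extend' (Finset.singleton_subset_iff.mpr he) hσ hloop hDσ
          have heF : e ∈ F := h1 (Finset.mem_singleton_self e)
          have hFS : F ⊆ S := h2.trans
            (Finset.union_subset (Finset.singleton_subset_iff.mpr he) hσ)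
          refine ⟨F.erase e, Finset.erase_subset_erase _ hFS, by rwa [Finset.insert_erase heF], ?_⟩
          rw [Finset.card_erase_of_mem heF, hS']
          have := Finset.card_pos.mpr ⟨e, heF⟩
          omega
      · refine exa_of_void fun τ hτ _ hU => hloop ?_
        have heτ : e ∉ τ := fun h => by simpa using hτ h
        exact hD _ Finset.sdiff_subset _ (by simp [he, heτ]) hU
    · have hcongr : ∀ τ ⊆ S.erase e, D (S.erase e \ τ) ↔ D (S \ insert e τ) := by
        intro τ _
        have : S.erase e \ τ = S \ insert e τ := by ext x; simp; tauto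
        rw [this]
      refine Exa.congr (ih (S.erase e) D i hS' ?_ ?_ ?_) hcongr
      · intro a ha b hb hDa
        exact hD _ (ha.trans (Finset.erase_subset _ _)) _ hb hDa
      · intro a ha b hb hDa hDb hab
        exact hE _ (ha.trans (Finset.erase_subset _ _)) _ (hb.trans (Finset.erase_subset _ _))
          hDa hDb hab
      · obtain ⟨F, h1, h2, h3, h4⟩ := hE.extend' hρ hσ hDρ hDσ
        have hFS : F ⊆ S := h2.trans (Finset.union_subset hρ hσ)
        have heF : e ∉ F := fun h => hnρ (hD _ hFS _ (Finset.insert_subset h h1) h3)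
        refine ⟨F, fun x hx => Finset.mem_erase.mpr ⟨fun h => heF (h ▸ hx), hFS hx⟩, h3, ?_⟩
        omega

end Pool.Agent.MP_d6b0b9_al

end MrgPart1

-- ======== part 2: formerly Pool.Agent.MP_d6b0b9_al.Strand
section MrgPart2

/-!
The strands of the Koszul complex of the second symbolic power of a matroid.
-/

namespace Pool.Agent.MP_d6b0b9_al

open Finset

variable {k : Type*} [Field k] {α : Type*} [LinearOrder α] [Fintype α]

/-- The down-closed family attached to the multidegree `1_S + b`. -/
def Dfam (Δ : Finset α → Prop) (S : Finset α) (b : α → ℕ) (σ : Finset α) : Prop :=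
  ∃ F, Δ F ∧ (σ \ F).card + ∑ i ∈ S \ F, b i ≤ 1

omit [Fintype α] in
lemma Dfam.down (Δ : Finset α → Prop) (S : Finset α) (b : α → ℕ) : Down S (Dfam Δ S b) := by
  rintro σ - σ' h ⟨F, hF, hle⟩
  have := Finset.card_le_card (Finset.sdiff_subset_sdiff h (subset_refl F))
  exact ⟨F, hF, by omega⟩

section
variable {Δ : Finset α → Prop} (hD : Down univ Δ) (hE : Exch univ Δ)
include hD

lemma face_big {B : Finset α} (hB : Δ B) (S : Finset α) :
    ∃ G ⊆ S, Δ G ∧ S.card ≤ (Fintype.card α - B.card) + G.card := by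
  refine ⟨S ∩ B, Finset.inter_subset_left, hD _ (subset_univ _) _ Finset.inter_subset_right hB, ?_⟩
  have h1 := Finset.card_sdiff_add_card_inter S B
  have h2 : (S \ B).card ≤ (univ \ B).card :=
    Finset.card_le_card (Finset.sdiff_subset_sdiff (subset_univ _) subset_rfl)
  rw [Finset.card_univ_sdiff] at h2
  omega

include hE

lemma face_big' {B : Finset α} (hB : Δ B) (S : Finset α) {e : α} (he : e ∉ S) {F : Finset α}
    (hF : Δ F) (hn : ¬ Δ (insert e F)) :
    ∃ G ⊆ S, Δ G ∧ S.card < (Fintype.card α - B.card) + G.card := by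
  obtain ⟨F', h1, -, h3, h4⟩ := hE.extend' (subset_univ F) (subset_univ B) hF hB
  have heF : e ∉ F' := fun h => hn (hD _ (subset_univ _) _ (Finset.insert_subset h h1) h3)
  refine ⟨S ∩ F', Finset.inter_subset_left,
    hD _ (subset_univ _) _ Finset.inter_subset_right h3, ?_⟩
  have h5 := Finset.card_sdiff_add_card_inter S F'
  have h6 : (insert e (S \ F')).card ≤ (univ \ F').card := by
    refine Finset.card_le_card (Finset.insert_subset (by simp [heF]) ?_)
    exact Finset.sdiff_subset_sdiff (subset_univ _) subset_rfl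
  rw [Finset.card_univ_sdiff, Finset.card_insert_of_notMem (by simp [he])] at h6
  omega

lemma exch_zero (S : Finset α) {b : α → ℕ} (hb : ∀ i ∈ S, b i = 0) : Exch S (Dfam Δ S b) := by
  have hs : ∀ F, ∑ i ∈ S \ F, b i = 0 := fun F =>
    Finset.sum_eq_zero fun i hi => hb i (Finset.mem_sdiff.mp hi).1
  rintro σ - σ' - ⟨F, hF, h1⟩ ⟨F', hF', h2⟩ hlt
  rw [hs] at h1 h2
  by_cases hσ : Δ σ
  · obtain ⟨v, hv, hvσ⟩ := Finset.exists_mem_notMem_of_card_lt_card hlt
    refine ⟨v, hv, hvσ, σ, hσ, ?_⟩
    rw [hs, Finset.insert_sdiff_of_notMem _ hvσ]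
    simp
  · have h3 := Finset.card_sdiff_add_card_inter σ F
    have h4 := Finset.card_sdiff_add_card_inter σ' F'
    have hG : Δ (σ ∩ F) := hD _ (subset_univ _) _ Finset.inter_subset_right hF
    have hG' : Δ (σ' ∩ F') := hD _ (subset_univ _) _ Finset.inter_subset_right hF'
    have h5 : (σ ∩ F).card < σ.card := by
      refine Finset.card_lt_card ⟨Finset.inter_subset_left, fun h => hσ ?_⟩
      exact hD _ (subset_univ _) _ h hG
    obtain ⟨v, hv, hvF, hDv⟩ := hE _ (subset_univ _) _ (subset_univ _) hG hG' (by omega)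
    have hvσ : v ∉ σ := by
      intro h
      apply hσ
      have : insert v (σ ∩ F) = σ := by
        refine Finset.eq_of_subset_of_card_le
          (Finset.insert_subset h Finset.inter_subset_left) ?_
        rw [Finset.card_insert_of_notMem hvF]; omega
      rwa [this] at hDv
    refine ⟨v, (Finset.mem_inter.mp hv).1, hvσ, insert v (σ ∩ F), hDv, ?_⟩
    rw [hs]
    have : insert v σ \ insert v (σ ∩ F) ⊆ σ \ F := by
      intro x; simp only [Finset.mem_sdiff, Finset.mem_insert, Finset.mem_inter]; tauto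
    have := Finset.card_le_card this
    omega

omit hD in
lemma cone_indep (S : Finset α) {b : α → ℕ} (hT : Δ (S.filter (fun i => b i ≠ 0))) {e : α}
    (he : e ∈ S) (hbe : b e ≠ 0) (σ : Finset α) (h : Dfam Δ S b σ) :
    Dfam Δ S b (insert e σ) := by
  obtain ⟨F, hF, h1⟩ := h
  by_cases heF : e ∈ F
  · exact ⟨F, hF, by rwa [Finset.insert_sdiff_of_mem _ heF]⟩
  have h2 : b e ≤ ∑ i ∈ S \ F, b i :=
    Finset.single_le_sum (f := b) (fun _ _ => Nat.zero_le _) (by simp [he, heF])
  have h3 : σ ⊆ F := by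
    rw [← Finset.sdiff_eq_empty_iff_subset, ← Finset.card_eq_zero]; omega
  have h4 : S.filter (fun i => b i ≠ 0) ⊆ insert e F := by
    intro x hx
    obtain ⟨hxS, hx0⟩ := Finset.mem_filter.mp hx
    by_contra hcon
    simp only [Finset.mem_insert, not_or] at hcon
    have : ∑ i ∈ ({e, x} : Finset α), b i ≤ ∑ i ∈ S \ F, b i :=
      Finset.sum_le_sum_of_subset (by
        intro y hy
        simp only [Finset.mem_insert, Finset.mem_singleton] at hy
        rcases hy with rfl | rfl
        · simp [he, heF]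
        · simp [hxS, hcon.2])
    rw [Finset.sum_pair (Ne.symm hcon.1)] at this
    omega
  obtain ⟨F', h5, h6, h7, h8⟩ := hE.extend' (subset_univ _) (subset_univ _) hT hF
  refine ⟨F', h7, ?_⟩
  have h9 : ∑ i ∈ S \ F', b i = 0 := by
    refine Finset.sum_eq_zero fun i hi => ?_
    by_contra h
    exact (Finset.mem_sdiff.mp hi).2 (h5 (Finset.mem_filter.mpr ⟨(Finset.mem_sdiff.mp hi).1, h⟩))
  have h10 : F' ⊆ insert e F := h6.trans (Finset.union_subset h4 (Finset.subset_insert _ _))
  have h11 : (insert e σ \ F').card ≤ (insert e F \ F').card :=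
    Finset.card_le_card (Finset.sdiff_subset_sdiff (Finset.insert_subset_insert _ h3) subset_rfl)
  rw [Finset.card_sdiff_of_subset h10, Finset.card_insert_of_notMem heF] at h11
  omega

/-- Swapping the omitted element of a dependent set of nullity one. -/
lemma swap_omit {T O : Finset α} (hT : ¬ Δ T) {e e' : α} (he' : e' ∈ T)
    (h1 : Δ (O ∪ T.erase e)) (h2 : Δ (T.erase e')) : Δ (O ∪ T.erase e') ∨ e' ∈ O := by
  by_cases hO : e' ∈ O
  · exact Or.inr hO
  left
  obtain ⟨F, h3, h4, h5, h6⟩ := hE.extend' (subset_univ _) (subset_univ _) h2 h1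
  have he'F : e' ∉ F := fun h => hT (hD _ (subset_univ _) _ (by
    rw [← Finset.insert_erase he']; exact Finset.insert_subset h h3) h5)
  have h7 : F ⊆ O ∪ T.erase e' := by
    intro x hx
    have := h4 hx
    have hxe : x ≠ e' := fun h => he'F (h ▸ hx)
    simp only [Finset.mem_union, Finset.mem_erase] at this ⊢
    tauto
  have h8 : (O ∪ T.erase e').card ≤ (O ∪ T.erase e).card := by
    have h9 : O ∪ T.erase e' = (O ∪ T).erase e' := by
      ext x; simp only [Finset.mem_union, Finset.mem_erase]
      constructor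
      · rintro (h | h)
        · exact ⟨fun h' => hO (h' ▸ h), Or.inl h⟩
        · exact ⟨h.1, Or.inr h.2⟩
      · tauto
    have h10 : (O ∪ T).erase e ⊆ O ∪ T.erase e := by
      intro x; simp only [Finset.mem_union, Finset.mem_erase]; tauto
    have h11 := Finset.card_le_card h10
    rw [h9, Finset.card_erase_of_mem (by simp [he'])]
    have := Finset.pred_card_le_card_erase (s := O ∪ T) (a := e)
    omega
  have : F = O ∪ T.erase e' := Finset.eq_of_subset_of_card_le h7 (by omega)
  rwa [← this]

omit hE in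
/-- Description of the family when the support of `b` is dependent. -/
lemma dfam_dep (S : Finset α) {b : α → ℕ} (hT : ¬ Δ (S.filter (fun i => b i ≠ 0)))
    {σ : Finset α} : Dfam Δ S b σ ↔ ∃ e ∈ S, b e = 1 ∧ e ∉ σ ∧
      Δ (σ ∪ (S.filter (fun i => b i ≠ 0)).erase e) := by
  constructor
  · rintro ⟨F, hF, h1⟩
    have h2 : ¬ S.filter (fun i => b i ≠ 0) ⊆ F := fun h => hT (hD _ (subset_univ _) _ h hF)
    obtain ⟨e, he, heF⟩ := Finset.not_subset.mp h2
    obtain ⟨heS, hbe⟩ := Finset.mem_filter.mp he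
    have h3 : b e ≤ ∑ i ∈ S \ F, b i :=
      Finset.single_le_sum (f := b) (fun _ _ => Nat.zero_le _) (by simp [heS, heF])
    have h4 : σ ⊆ F := by
      rw [← Finset.sdiff_eq_empty_iff_subset, ← Finset.card_eq_zero]; omega
    refine ⟨e, heS, by omega, fun h => heF (h4 h), hD _ (subset_univ _) _
      (Finset.union_subset h4 ?_) hF⟩
    intro x hx
    obtain ⟨hxe, hx⟩ := Finset.mem_erase.mp hx
    obtain ⟨hxS, hx0⟩ := Finset.mem_filter.mp hx
    by_contra hcon
    have : ∑ i ∈ ({e, x} : Finset α), b i ≤ ∑ i ∈ S \ F, b i :=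
      Finset.sum_le_sum_of_subset (by
        intro y hy
        simp only [Finset.mem_insert, Finset.mem_singleton] at hy
        rcases hy with rfl | rfl
        · simp [heS, heF]
        · simp [hxS, hcon])
    rw [Finset.sum_pair (Ne.symm hxe)] at this
    omega
  · rintro ⟨e, heS, hbe, heσ, h⟩
    refine ⟨_, h, ?_⟩
    have h1 : σ \ (σ ∪ (S.filter (fun i => b i ≠ 0)).erase e) = ∅ :=
      Finset.sdiff_eq_empty_iff_subset.mpr Finset.subset_union_left
    rw [h1, Finset.card_empty, zero_add, ← hbe]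
    refine le_of_eq (Finset.sum_eq_single_of_mem e (by simp [heS, heσ]) ?_)
    intro x hx hxe
    by_contra h0
    simp [hxe, h0] at hx
    tauto

lemma dfam_desc (S : Finset α) {b : α → ℕ} (hT : ¬ Δ (S.filter (fun i => b i ≠ 0)))
    (hP : ∀ e ∈ S.filter (fun i => b i ≠ 0), b e = 1 ∧ Δ ((S.filter (fun i => b i ≠ 0)).erase e))
    {e0 : α} (he0 : e0 ∈ S.filter (fun i => b i ≠ 0)) :
    ∀ σ, Dfam Δ S b σ ↔ ¬ S.filter (fun i => b i ≠ 0) ⊆ σ ∧
      Δ (σ \ S.filter (fun i => b i ≠ 0) ∪ (S.filter (fun i => b i ≠ 0)).erase e0) := by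
  set T := S.filter (fun i => b i ≠ 0) with hTdef
  have hTS : T ⊆ S := Finset.filter_subset _ _
  intro σ
  rw [dfam_dep hD S hT]
  constructor
  · rintro ⟨e, heS, hbe, heσ, h⟩
    have heT : e ∈ T := Finset.mem_filter.mpr ⟨heS, by omega⟩
    refine ⟨fun h' => heσ (h' heT), ?_⟩
    have h1 : Δ (σ \ T ∪ T.erase e) := hD _ (subset_univ _) _
      (Finset.union_subset_union Finset.sdiff_subset subset_rfl) h
    rcases swap_omit hD hE hT he0 h1 (hP e0 he0).2 with h2 | h2
    · exact h2
    · exact absurd he0 (Finset.mem_sdiff.mp h2).2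
  · rintro ⟨h1, h2⟩
    obtain ⟨e, heT, heσ⟩ := Finset.not_subset.mp h1
    refine ⟨e, hTS heT, (hP e heT).1, heσ, ?_⟩
    rcases swap_omit hD hE hT heT h2 (hP e heT).2 with h3 | h3
    · refine hD _ (subset_univ _) _ ?_ h3
      intro x hx
      simp only [Finset.mem_union, Finset.mem_sdiff, Finset.mem_erase] at hx ⊢
      by_cases hxT : x ∈ T
      · rcases hx with hx | hx
        · exact Or.inr ⟨fun h => heσ (h ▸ hx), hxT⟩
        · exact Or.inr hx
      · rcases hx with hx | hx
        · exact Or.inl ⟨hx, hxT⟩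
        · exact Or.inr hx
    · exact absurd heT (Finset.mem_sdiff.mp h3).2

lemma dfam_exch (S : Finset α) {b : α → ℕ} (hT : ¬ Δ (S.filter (fun i => b i ≠ 0)))
    (hP : ∀ e ∈ S.filter (fun i => b i ≠ 0), b e = 1 ∧ Δ ((S.filter (fun i => b i ≠ 0)).erase e))
    {e0 : α} (he0 : e0 ∈ S.filter (fun i => b i ≠ 0)) : Exch S (Dfam Δ S b) := by
  have hdesc := dfam_desc hD hE S hT hP he0
  set T := S.filter (fun i => b i ≠ 0) with hTdef
  have hdisj : ∀ σ : Finset α, Disjoint (σ \ T) (T.erase e0) := fun σ =>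
    Finset.disjoint_of_subset_right (Finset.erase_subset _ _) Finset.sdiff_disjoint
  intro σ _ σ' _ h1 h2 hlt
  rw [hdesc] at h1 h2
  have h3 := Finset.card_sdiff_add_card_inter σ T
  have h4 := Finset.card_sdiff_add_card_inter σ' T
  by_cases h5 : (σ ∩ T).card < (σ' ∩ T).card
  · obtain ⟨v, hv, hvσ⟩ := Finset.exists_mem_notMem_of_card_lt_card h5
    obtain ⟨hv1, hv2⟩ := Finset.mem_inter.mp hv
    have hvσ' : v ∉ σ := fun h => hvσ (Finset.mem_inter.mpr ⟨h, hv2⟩)
    refine ⟨v, hv1, hvσ', (hdesc _).mpr ⟨fun h => ?_, ?_⟩⟩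
    · have h6 : T ⊆ insert v (σ ∩ T) := by
        intro x hx
        have := h hx
        simp only [Finset.mem_insert, Finset.mem_inter] at this ⊢
        tauto
      have h7 := Finset.card_le_card h6
      rw [Finset.card_insert_of_notMem hvσ] at h7
      have h8 : (σ' ∩ T).card < T.card :=
        Finset.card_lt_card ⟨Finset.inter_subset_right,
          fun h => h2.1 (h.trans Finset.inter_subset_left)⟩
      omega
    · rw [Finset.insert_sdiff_of_mem _ hv2]; exact h1.2
  · obtain ⟨v, hv, hvσ, hDv⟩ := hE _ (subset_univ _) _ (subset_univ _) h1.2 h2.2 (by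
      rw [Finset.card_union_of_disjoint (hdisj σ), Finset.card_union_of_disjoint (hdisj σ')]
      omega)
    simp only [Finset.mem_union, not_or] at hv hvσ
    have hv' := hv.resolve_right hvσ.2
    obtain ⟨hv1, hv2⟩ := Finset.mem_sdiff.mp hv'
    have hvσ' : v ∉ σ := fun h => hvσ.1 (Finset.mem_sdiff.mpr ⟨h, hv2⟩)
    refine ⟨v, hv1, hvσ', (hdesc _).mpr ⟨fun h => h1.1 ?_, ?_⟩⟩
    · intro x hx
      rcases Finset.mem_insert.mp (h hx) with rfl | h'
      · exact absurd hx hv2
      · exact h'
    · rw [Finset.insert_sdiff_of_notMem _ hv2, Finset.insert_union]; exact hDv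

theorem exa_strand {B : Finset α} (hB : Δ B) {s : ℕ}
    (hs : ∀ C, ¬ Δ C → (∀ e ∈ C, Δ (C.erase e)) → C.card = s)
    {E' : Finset α} (hE' : ∀ e, e ∈ E' ↔ ∃ F, Δ F ∧ ¬ Δ (insert e F))
    (S : Finset α) (b : α → ℕ) (i : ℕ)
    (hi : Fintype.card α - B.card < i ∨ (Fintype.card α - B.card = i ∧
      S.card + ∑ j ∈ S, b j ≠ if i = 0 then 0 else E'.card + s)) :
    Exa k S (fun τ => Dfam Δ S b (S \ τ)) i := by
  set c := Fintype.card α - B.card with hc
  set T := S.filter (fun i => b i ≠ 0) with hTdef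
  have hTS : T ⊆ S := Finset.filter_subset _ _
  obtain ⟨G, hGS, hG, hGc⟩ := face_big hD hB S
  by_cases hT : Δ T
  · rcases T.eq_empty_or_nonempty with hT0 | ⟨e, he⟩
    · have hb : ∀ j ∈ S, b j = 0 := by
        intro j hj
        by_contra h
        have : j ∈ T := Finset.mem_filter.mpr ⟨hj, h⟩
        simp [hT0] at this
      have hsum : ∀ F, ∑ i ∈ S \ F, b i = 0 := fun F =>
        Finset.sum_eq_zero fun i hi => hb i (Finset.mem_sdiff.mp hi).1
      by_cases hGS' : S ⊆ G
      · rcases S.eq_empty_or_nonempty with rfl | ⟨e, he⟩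
        · refine exa_of_void fun τ hτ hτc _ => ?_
          rw [Finset.subset_empty.mp hτ, Finset.card_empty] at hτc
          subst hτc
          simp at hi
        · refine exa_cone' he (fun σ hσ _ _ => ⟨G, hG, ?_⟩) i
          rw [hsum, Finset.sdiff_eq_empty_iff_subset.mpr
            ((Finset.insert_subset he hσ).trans hGS')]
          simp
      · obtain ⟨v, hv, hvG⟩ := Finset.not_subset.mp hGS'
        refine exa_matroid _ S _ i rfl (Dfam.down Δ S b) (exch_zero hD hE S hb)
          ⟨insert v G, Finset.insert_subset hv hGS, ⟨G, hG, ?_⟩, ?_⟩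
        · rw [hsum, Finset.insert_sdiff_of_notMem _ hvG]; simp
        · rw [Finset.card_insert_of_notMem hvG]; omega
    · obtain ⟨heS, hbe⟩ := Finset.mem_filter.mp he
      exact exa_cone' heS (fun σ _ _ h => cone_indep hE S hT heS hbe σ h) i
  · by_cases hP : ∃ e ∈ T, ¬ (b e = 1 ∧ Δ (T.erase e))
    · obtain ⟨e, he, hne⟩ := hP
      refine exa_cone' (hTS he) (fun σ _ _ h => ?_) i
      rw [dfam_dep hD S hT] at h ⊢
      obtain ⟨e', he'S, hbe', he'σ, h⟩ := h
      have hne' : e' ≠ e := by
        rintro rfl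
        exact hne ⟨hbe', hD _ (subset_univ _) _ Finset.subset_union_right h⟩
      refine ⟨e', he'S, hbe', by simp [hne', he'σ], ?_⟩
      have : insert e σ ∪ T.erase e' = σ ∪ T.erase e' := by
        rw [Finset.insert_union, Finset.insert_eq_of_mem]
        simp [he, hne'.symm]
      rwa [this]
    push Not at hP
    have hTs : T.card = s := hs T hT fun e he => (hP e he).2
    have hTne : T.Nonempty := by
      rcases T.eq_empty_or_nonempty with h | h
      · exact absurd (h ▸ hD _ (subset_univ _) _ (Finset.empty_subset _) hB) hT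
      · exact h
    obtain ⟨e0, he0⟩ := hTne
    have hdesc := dfam_desc hD hE S hT hP he0
    have hexch := dfam_exch hD hE S hT hP he0
    have hbig : ∀ G' ⊆ S, Δ G' → S.card < i + G'.card →
        Exa k S (fun τ => Dfam Δ S b (S \ τ)) i := by
      intro G' hG'S hG' hlt
      obtain ⟨F, h1, h2, h3, h4⟩ := hE.extend' (subset_univ _) (subset_univ _) (hP e0 he0).2 hG'
      refine exa_matroid _ S _ i rfl (Dfam.down Δ S b) hexch ⟨F, h2.trans (Finset.union_subset
        ((Finset.erase_subset _ _).trans hTS) hG'S), (hdesc F).mpr ⟨fun h => hT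
          (hD _ (subset_univ _) _ h h3), hD _ (subset_univ _) _
            (Finset.union_subset Finset.sdiff_subset h1) h3⟩, by omega⟩
    rcases hi with hi | ⟨hi, hne⟩
    · exact hbig G hGS hG (by omega)
    by_cases hES : E' ⊆ S
    · by_cases hSE : S ⊆ E'
      · exfalso
        apply hne
        have hi0 : i ≠ 0 := by
          rintro rfl
          apply hT
          have h1 : B = univ := Finset.eq_univ_of_card B (le_antisymm (Finset.card_le_univ _)
            (by omega))
          exact hD _ (subset_univ _) _ (h1 ▸ subset_univ _) hB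
        rw [if_neg hi0, Finset.Subset.antisymm hES hSE, ← hTs]
        congr 1
        rw [← Finset.sum_filter_ne_zero, Finset.card_eq_sum_ones]
        exact Finset.sum_congr rfl fun x hx => (hP x hx).1
      · obtain ⟨e, heS, heE⟩ := Finset.not_subset.mp hSE
        rw [hE'] at heE
        push Not at heE
        have heT : e ∉ T := fun h => hT (by
          have := heE _ (hP e h).2
          rwa [Finset.insert_erase h] at this)
        refine exa_cone' heS (fun σ _ _ h => ?_) i
        rw [hdesc] at h ⊢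
        refine ⟨fun h' => h.1 ?_, ?_⟩
        · intro x hx
          rcases Finset.mem_insert.mp (h' hx) with rfl | h''
          · exact absurd hx heT
          · exact h''
        · rw [Finset.insert_sdiff_of_notMem _ heT, Finset.insert_union]; exact heE _ h.2
    · obtain ⟨e, heE, heS⟩ := Finset.not_subset.mp hES
      obtain ⟨F, hF, hn⟩ := (hE' e).mp heE
      obtain ⟨G', h1, h2, h3⟩ := face_big' hD hE hB S heS hF hn
      exact hbig G' h1 h2 (by omega)

end

end Pool.Agent.MP_d6b0b9_al

end MrgPart2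

-- ======== part 3: formerly Pool.Agent.MP_d6b0b9_al.NonVan
section MrgPart3

/-!
Non-vanishing of the top strand for coloop-free matroids.
-/

namespace Pool.Agent.MP_d6b0b9_al

open Finset

variable {k : Type*} [Field k] {α : Type*} [LinearOrder α]

lemma exa_link {S : Finset α} {U : Finset α → Prop} {e : α} (he : e ∈ S) {i : ℕ}
    (hup : ∀ τ ⊆ S, e ∉ τ → U τ → U (insert e τ))
    (h : Exa k S U i) (h1 : Exa k (S.erase e) (fun τ => U (insert e τ)) i) :
    Exa k (S.erase e) U i := by
  intro z hz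
  have hcongr : ∀ ρ, e ∉ ρ → dd (S.erase e) (fun τ => if e ∈ τ then 0 else z τ) ρ =
      dd (S.erase e) z ρ := by
    intro ρ hρ
    unfold dd
    refine Finset.sum_congr rfl fun t ht => ?_
    have hne : t ≠ e := fun h => by
      have := (Finset.mem_sdiff.mp ht).1
      simp [h] at this
    have : e ∉ insert t ρ := by simp [hρ, hne.symm]
    simp [this]
  obtain ⟨w, hw⟩ := h (fun τ => if e ∈ τ then 0 else z τ) (by
    intro ρ hρ hc hU
    by_cases heρ : e ∈ ρ
    · unfold dd
      exact Finset.sum_eq_zero fun t _ => by simp [heρ]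
    · rw [dd_split he _ heρ, hcongr ρ heρ, hz ρ (fun x hx =>
        Finset.mem_erase.mpr ⟨fun h => heρ (h ▸ hx), hρ hx⟩) hc hU]
      simp)
  obtain ⟨w2, hw2⟩ := h1 (fun τ => sgn k τ e * w (insert e τ)) (by
    intro ρ hρ hc hU
    have heρ : e ∉ ρ := fun h => by simpa using hρ h
    have hsub : insert e ρ ⊆ S := Finset.insert_subset he (hρ.trans (Finset.erase_subset _ _))
    have := hw (insert e ρ) hsub (by rw [Finset.card_insert_of_notMem heρ, hc]) hU
    simp only [Finset.mem_insert_self, if_true] at this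
    rw [dd_insert _ heρ, eq_comm, neg_eq_zero] at this
    have h3 := sgn_mul_self (k := k) ρ e
    calc _ = (sgn k ρ e * sgn k ρ e) *
          dd (S.erase e) (fun τ => sgn k τ e * w (insert e τ)) ρ := by rw [h3, one_mul]
      _ = 0 := by rw [mul_assoc, this, mul_zero])
  refine ⟨fun τ => w2 τ + w τ, fun τ hτ hc hU => ?_⟩
  have heτ : e ∉ τ := fun h => by simpa using hτ h
  have hτS : τ ⊆ S := hτ.trans (Finset.erase_subset _ _)
  have h2 := hw τ hτS hc hU
  simp only [heτ, if_false] at h2
  rw [dd_add, ← hw2 τ hτ hc (hup τ hτS heτ hU), h2, dd_split he w heτ]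

lemma exa_loop {S : Finset α} {U : Finset α → Prop} {e : α} (he : e ∈ S) {i : ℕ}
    (hloop : ∀ τ ⊆ S, U τ → e ∈ τ) (h : Exa k S U (i + 1)) :
    Exa k (S.erase e) (fun τ => U (insert e τ)) i := by
  intro z hz
  have hcongr : ∀ ρ, e ∉ ρ → dd (S.erase e) (fun τ => sgn k τ e *
      (sgn k ((insert e τ).erase e) e * z ((insert e τ).erase e))) ρ = dd (S.erase e) z ρ := by
    intro ρ hρ
    unfold dd
    refine Finset.sum_congr rfl fun t ht => ?_
    have hne : t ≠ e := fun h => by
      have := (Finset.mem_sdiff.mp ht).1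
      simp [h] at this
    have : e ∉ insert t ρ := by simp [hρ, hne.symm]
    simp only [Finset.erase_insert this]
    rw [← mul_assoc (sgn k (insert t ρ) e), sgn_mul_self, one_mul]
  obtain ⟨w, hw⟩ := h (fun τ => sgn k (τ.erase e) e * z (τ.erase e)) (by
    intro ρ hρ hc hU
    have heρ := hloop ρ hρ hU
    obtain ⟨ρ', hρ', rfl⟩ : ∃ ρ', e ∉ ρ' ∧ ρ = insert e ρ' :=
      ⟨ρ.erase e, by simp, by simp [heρ]⟩
    rw [dd_insert _ hρ', hcongr ρ' hρ', hz ρ' (fun x hx => Finset.mem_erase.mpr
      ⟨fun h => hρ' (h ▸ hx), hρ (Finset.mem_insert_of_mem hx)⟩)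
      (by rw [Finset.card_insert_of_notMem hρ'] at hc; omega) hU]
    simp)
  refine ⟨fun τ => 0 - sgn k τ e * w (insert e τ), fun τ hτ hc hU => ?_⟩
  have heτ : e ∉ τ := fun h => by simpa using hτ h
  have hsub : insert e τ ⊆ S := Finset.insert_subset he (hτ.trans (Finset.erase_subset _ _))
  have h2 := hw (insert e τ) hsub (by rw [Finset.card_insert_of_notMem heτ, hc]) hU
  rw [dd_insert _ heτ, Finset.erase_insert heτ] at h2
  rw [dd_sub]
  have h0 : dd (S.erase e) (fun _ => (0 : k)) τ = 0 := by simp [dd]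
  have h3 := sgn_mul_self (k := k) τ e
  rw [h0]
  linear_combination (sgn k τ e) * h2 - (z τ + dd (S.erase e)
    (fun τ => sgn k τ e * w (insert e τ)) τ) * h3

theorem not_exa_matroid : ∀ (m : ℕ) (S : Finset α) (D : Finset α → Prop) (i r : ℕ), S.card = m →
    Down S D → Exch S D → D ∅ → (∀ F ⊆ S, D F → F.card ≤ r) →
    (∀ e ∈ S, ∃ F ⊆ S, D F ∧ F.card = r ∧ e ∉ F) → (S = ∅ → r = 0) → i + r = S.card →
    ¬ Exa k S (fun τ => D (S \ τ)) i := by
  intro m
  induction m with
  | zero =>
    intro S D i r hS _ _ h0 _ _ _ hi h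
    obtain rfl : S = ∅ := Finset.card_eq_zero.mp hS
    obtain ⟨w, hw⟩ := h (fun _ => 1) (fun ρ _ hc _ => by omega)
    have := hw ∅ subset_rfl (by simp; omega) (by simpa using h0)
    simp [dd] at this
  | succ m ih =>
    intro S D i r hS hD hE h0 hmax hco _ hi h
    obtain ⟨e, he⟩ : S.Nonempty := Finset.card_pos.mp (by omega)
    have hS' : (S.erase e).card = m := by rw [Finset.card_erase_of_mem he]; omega
    have hsub : ∀ F ⊆ S, e ∉ F → F ⊆ S.erase e := fun F hF heF x hx =>
      Finset.mem_erase.mpr ⟨fun h => heF (h ▸ hx), hF hx⟩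
    have hcongr1 : ∀ τ ⊆ S.erase e, D (S.erase e \ τ) ↔ D (S \ insert e τ) := by
      intro τ _
      have : S.erase e \ τ = S \ insert e τ := by ext x; simp; tauto
      rw [this]
    have hD1 : Down (S.erase e) D := fun a ha b hb hDa =>
      hD _ (ha.trans (Finset.erase_subset _ _)) _ hb hDa
    have hE1 : Exch (S.erase e) D := fun a ha b hb hDa hDb hab =>
      hE _ (ha.trans (Finset.erase_subset _ _)) _ (hb.trans (Finset.erase_subset _ _)) hDa hDb hab
    obtain ⟨F0, hF0S, hF0, hF0c, heF0⟩ := hco e he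
    have hF0le := Finset.card_le_card (hsub F0 hF0S heF0)
    by_cases hloop : D {e}
    · have hcongr : ∀ τ ⊆ S.erase e, D (S \ τ) ↔ D (insert e (S.erase e \ τ)) := by
        intro τ hτ
        have heτ : e ∉ τ := fun h => by simpa using hτ h
        have : insert e (S.erase e \ τ) = S \ τ := by
          ext x; simp only [Finset.mem_sdiff, Finset.mem_insert, Finset.mem_erase]
          constructor
          · rintro (rfl | ⟨⟨_, h1⟩, h2⟩)
            · exact ⟨he, heτ⟩
            · exact ⟨h1, h2⟩
          · rintro ⟨h1, h2⟩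
            by_cases hx : x = e
            · exact Or.inl hx
            · exact Or.inr ⟨⟨hx, h1⟩, h2⟩
        rw [this]
      have hr : 1 ≤ r := by simpa using hmax {e} (Finset.singleton_subset_iff.mpr he) hloop
      refine ih (S.erase e) (fun σ => D (insert e σ)) i (r - 1) hS' ?_ ?_ (by simpa using hloop)
        ?_ ?_ ?_ (by omega) (Exa.congr (exa_link he ?_ h (Exa.congr (exa_matroid _ _ D i rfl hD1 hE1
          ⟨F0, hsub F0 hF0S heF0, hF0, by omega⟩) hcongr1)) hcongr)
      · intro a ha b hb hDa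
        exact hD _ (Finset.insert_subset he (ha.trans (Finset.erase_subset _ _))) _
          (Finset.insert_subset_insert _ hb) hDa
      · intro a ha b hb hDa hDb hab
        have hea : e ∉ a := fun h => by simpa using ha h
        have heb : e ∉ b := fun h => by simpa using hb h
        obtain ⟨v, hv, hva, hDv⟩ := hE _
          (Finset.insert_subset he (ha.trans (Finset.erase_subset _ _))) _
          (Finset.insert_subset he (hb.trans (Finset.erase_subset _ _))) hDa hDb
          (by rw [Finset.card_insert_of_notMem hea, Finset.card_insert_of_notMem heb]; omega)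
        simp only [Finset.mem_insert, not_or] at hv hva
        refine ⟨v, hv.resolve_left hva.1, hva.2, ?_⟩
        rwa [Finset.insert_comm] at hDv
      · intro F hF hDF
        have heF : e ∉ F := fun h => by simpa using hF h
        have := hmax _ (Finset.insert_subset he (hF.trans (Finset.erase_subset _ _))) hDF
        rw [Finset.card_insert_of_notMem heF] at this
        omega
      · intro e' he'
        obtain ⟨hne, he'S⟩ := Finset.mem_erase.mp he'
        obtain ⟨F, hFS, hF, hFc, he'F⟩ := hco e' he'S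
        obtain ⟨G, h1, h2, h3, h4⟩ := hE.extend' (Finset.singleton_subset_iff.mpr he) hFS hloop hF
        have heG : e ∈ G := h1 (Finset.mem_singleton_self e)
        have hGS : G ⊆ S := h2.trans (Finset.union_subset (Finset.singleton_subset_iff.mpr he) hFS)
        have := hmax G hGS h3
        refine ⟨G.erase e, Finset.erase_subset_erase _ hGS, by rwa [Finset.insert_erase heG],
          by rw [Finset.card_erase_of_mem heG]; omega, fun h => ?_⟩
        have := h2 (Finset.mem_of_mem_erase h)
        simp [hne, he'F] at this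
      · intro h; rw [h, Finset.card_empty] at hF0le; omega
      · intro τ hτ _ hU
        exact hD _ Finset.sdiff_subset _
          (Finset.sdiff_subset_sdiff subset_rfl (Finset.subset_insert _ _)) hU
    · obtain ⟨i, rfl⟩ : ∃ j, i = j + 1 := ⟨i - 1, by omega⟩
      have hne : ∀ F ⊆ S, D F → e ∉ F := fun F hF hDF h =>
        hloop (hD _ hF _ (Finset.singleton_subset_iff.mpr h) hDF)
      refine ih (S.erase e) D i r hS' hD1 hE1 h0
        (fun F hF => hmax F (hF.trans (Finset.erase_subset _ _))) ?_ ?_ (by omega)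
        (Exa.congr (exa_loop he ?_ h) (fun τ hτ => (hcongr1 τ hτ).symm))
      · intro e' he'
        obtain ⟨F, hFS, hF, hFc, he'F⟩ := hco e' (Finset.mem_of_mem_erase he')
        exact ⟨F, hsub F hFS (hne F hFS hF), hF, hFc, he'F⟩
      · intro h; rw [h, Finset.card_empty] at hF0le; omega
      · intro τ hτ hU
        by_contra h
        exact hne _ Finset.sdiff_subset hU (by simp [he, h])

end Pool.Agent.MP_d6b0b9_al

end MrgPart3

-- ======== part 4: formerly Pool.Agent.MP_d6b0b9_al.Koszul
section MrgPart4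

/-!
The Koszul complex of a monomial quotient splits into multigraded strands.
-/

namespace Pool.Agent.MP_d6b0b9_al

open Finset MvPolynomial

variable {k : Type*} [Field k] {n : ℕ}

/-- Exponent vector of a squarefree monomial. -/
noncomputable def ind (T : Finset (Fin n)) : Fin n →₀ ℕ :=
  Finsupp.equivFunOnFinite.symm fun i => if i ∈ T then 1 else 0

@[simp] lemma ind_apply (T : Finset (Fin n)) (i : Fin n) : ind T i = if i ∈ T then 1 else 0 := by
  simp [ind]

lemma degree_ind (T : Finset (Fin n)) : (ind T).degree = T.card := by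
  rw [Finsupp.degree_eq_sum]
  simp

lemma ind_le_iff {T : Finset (Fin n)} {b : Fin n →₀ ℕ} : ind T ≤ b ↔ T ⊆ b.support := by
  constructor
  · intro h i hi
    have := h i
    simp only [ind_apply, hi, if_true] at this
    simp; omega
  · intro h i
    by_cases hi : i ∈ T
    · have := h hi
      simp only [Finsupp.mem_support_iff] at this
      simp only [ind_apply, hi, if_true]; omega
    · simp [hi]

lemma prod_X_eq (T : Finset (Fin n)) :
    (∏ i ∈ T, X i : MvPolynomial (Fin n) k) = monomial (ind T) 1 := by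
  have : ind T = ∑ i ∈ T, Finsupp.single i 1 := by
    ext j
    simp [Finsupp.finsetSum_apply, Finsupp.single_apply]
  rw [this, monomial_sum_one]
  rfl

/-- The Koszul differential on representatives. -/
noncomputable def preD (p : Finset (Fin n) → MvPolynomial (Fin n) k) (S : Finset (Fin n)) :
    MvPolynomial (Fin n) k :=
  ∑ t ∈ Sᶜ, (-1) ^ (S.filter (· < t)).card * X t * p (insert t S)

lemma koszulD_mk (J : Ideal (MvPolynomial (Fin n) k))
    (p : Finset (Fin n) → MvPolynomial (Fin n) k) (S : Finset (Fin n)) :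
    koszulD J (fun T => Ideal.Quotient.mk J (p T)) S = Ideal.Quotient.mk J (preD p S) := by
  simp [koszulD, preD, map_sum]

lemma coeff_preD (p : Finset (Fin n) → MvPolynomial (Fin n) k) (b : Fin n →₀ ℕ)
    {ρ : Finset (Fin n)} (_hρ : ρ ⊆ b.support) :
    coeff (b - ind ρ) (preD p ρ) = dd b.support (fun τ => coeff (b - ind τ) (p τ)) ρ := by
  unfold preD dd
  rw [coeff_sum]
  have h1 : b.support \ ρ = ρᶜ.filter (fun t => t ∈ b.support) := by
    ext x; simp; tauto
  rw [h1, Finset.sum_filter]
  refine Finset.sum_congr rfl fun t ht => ?_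
  have htρ : t ∉ ρ := Finset.mem_compl.mp ht
  have h2 : ((-1 : MvPolynomial (Fin n) k)) ^ (ρ.filter (· < t)).card = C (sgn k ρ t) := by
    simp [sgn]
  rw [h2, mul_assoc, coeff_C_mul, coeff_X_mul']
  have h3 : t ∈ (b - ind ρ).support ↔ t ∈ b.support := by
    simp [htρ]
  have h4 : b - ind ρ - Finsupp.single t 1 = b - ind (insert t ρ) := by
    ext j
    simp only [Finsupp.coe_tsub, Pi.sub_apply, ind_apply, Finset.mem_insert, Finsupp.single_apply]
    by_cases hj : j = t
    · subst hj; simp [htρ]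
    · simp [hj, Ne.symm hj]
  by_cases hb : t ∈ b.support
  · rw [if_pos (h3.mpr hb), if_pos hb, h4]
  · rw [if_neg (fun h => hb (h3.mp h)), if_neg hb, mul_zero]

section
variable {J : Ideal (MvPolynomial (Fin n) k)} {N : (Fin n →₀ ℕ) → Prop}
  (hJ : ∀ p, p ∈ J ↔ ∀ a, N a → coeff a p = 0)
include hJ

theorem torVanishes_of_exa {i j : ℕ}
    (h : ∀ b : Fin n →₀ ℕ, b.degree = j → Exa k b.support (fun τ => N (b - ind τ)) i) :
    TorVanishes J i j := by
  intro f hf hd
  have hrep : ∀ T, ∃ p : MvPolynomial (Fin n) k, Ideal.Quotient.mk J p = f T ∧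
      ∀ a, coeff a p ≠ 0 → T.card = i ∧ a.degree + i = j := by
    intro T
    rcases hf T with h0 | ⟨hT, d, p, hd, hp, hpf⟩
    · exact ⟨0, by simp [h0], by simp⟩
    · refine ⟨p, hpf, fun a ha => ⟨hT, ?_⟩⟩
      by_contra hne
      exact ha (hp.coeff_eq_zero (by omega))
  choose p hp hp' using hrep
  have hf' : f = fun T => Ideal.Quotient.mk J (p T) := funext fun T => (hp T).symm
  have hcyc : ∀ ρ, preD p ρ ∈ J := by
    intro ρ
    rw [← Ideal.Quotient.eq_zero_iff_mem, ← koszulD_mk, ← hf', hd]
    rfl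
  have hw : ∀ b : Fin n →₀ ℕ, ∃ w : Finset (Fin n) → k, b.degree = j → ∀ τ ⊆ b.support,
      τ.card = i → N (b - ind τ) → coeff (b - ind τ) (p τ) = dd b.support w τ := by
    intro b
    by_cases hb : b.degree = j
    · obtain ⟨w, hw⟩ := h b hb (fun τ => coeff (b - ind τ) (p τ)) (fun ρ hρ _ hN => by
        rw [← coeff_preD p b hρ]
        exact (hJ _).mp (hcyc ρ) _ hN)
      exact ⟨w, fun _ => hw⟩
    · exact ⟨0, fun h => absurd h hb⟩
  choose w hw using hw
  set q : Finset (Fin n) → MvPolynomial (Fin n) k := fun U =>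
    if U.card = i + 1 then ∑ a ∈ (finsuppAntidiag univ (j - (i + 1))).filter
      (fun a => a.degree + (i + 1) = j), monomial a (w (a + ind U) U) else 0 with hq
  have hqc : ∀ U a, coeff a (q U) =
      if U.card = i + 1 ∧ a.degree + (i + 1) = j then w (a + ind U) U else 0 := by
    intro U a
    by_cases hU : U.card = i + 1
    · simp only [hq, hU, if_true, coeff_sum, coeff_monomial, true_and]
      rw [Finset.sum_ite_eq']
      congr 1
      simp only [Finset.mem_filter, mem_finsuppAntidiag, subset_univ, and_true, eq_iff_iff,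
        and_iff_right_iff_imp]
      intro h
      rw [Finsupp.degree_eq_sum] at h
      show ∑ i, a i = _
      omega
    · simp [hq, hU]
  refine ⟨fun U => Ideal.Quotient.mk J (q U), fun U => ?_, ?_⟩
  · by_cases hU : U.card = i + 1 ∧ i + 1 ≤ j
    · refine Or.inr ⟨hU.1, j - (i + 1), q U, by omega, ?_, rfl⟩
      intro a ha
      rw [hqc] at ha
      have h1 : a.degree + (i + 1) = j := by
        by_contra hcon
        simp [hcon] at ha
      have h2 : Finsupp.weight (1 : Fin n → ℕ) a = a.degree := by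
        rw [Finsupp.degree_eq_weight_one]; rfl
      rw [h2]
      omega
    · left
      have : q U = 0 := by
        ext a
        rw [hqc, if_neg (fun h => hU ⟨h.1, by omega⟩)]
        simp
      simp [this]
  · funext τ
    rw [koszulD_mk, hf', Ideal.Quotient.eq, hJ]
    intro a ha
    have hτ : τ ⊆ (a + ind τ).support := ind_le_iff.mp le_add_self
    have h1 := coeff_preD q (a + ind τ) hτ
    rw [add_tsub_cancel_right] at h1
    rw [coeff_sub, h1, sub_eq_zero]
    by_cases hc : τ.card = i ∧ a.degree + i = j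
    · have h2 := hw (a + ind τ) (by rw [map_add, degree_ind]; omega) τ hτ hc.1
        (by rwa [add_tsub_cancel_right])
      rw [add_tsub_cancel_right] at h2
      rw [h2]
      unfold dd
      refine Finset.sum_congr rfl fun t ht => ?_
      obtain ⟨ht1, ht2⟩ := Finset.mem_sdiff.mp ht
      have h3 : ind (insert t τ) ≤ a + ind τ := ind_le_iff.mpr (Finset.insert_subset ht1 hτ)
      have h4 := congrArg Finsupp.degree (tsub_add_cancel_of_le h3)
      rw [map_add, map_add, degree_ind, degree_ind, Finset.card_insert_of_notMem ht2] at h4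
      beta_reduce
      rw [hqc, if_pos ⟨by rw [Finset.card_insert_of_notMem ht2, hc.1], by omega⟩,
        tsub_add_cancel_of_le h3]
    · have h2 : coeff a (p τ) = 0 := by
        by_contra h
        exact hc (hp' τ a h)
      rw [h2]
      unfold dd
      refine Finset.sum_eq_zero fun t ht => ?_
      obtain ⟨ht1, ht2⟩ := Finset.mem_sdiff.mp ht
      have h3 : ind (insert t τ) ≤ a + ind τ := ind_le_iff.mpr (Finset.insert_subset ht1 hτ)
      have h4 := congrArg Finsupp.degree (tsub_add_cancel_of_le h3)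
      rw [map_add, map_add, degree_ind, degree_ind, Finset.card_insert_of_notMem ht2] at h4
      beta_reduce
      rw [hqc, if_neg, mul_zero]
      rintro ⟨h5, h6⟩
      rw [Finset.card_insert_of_notMem ht2] at h5
      exact hc ⟨by omega, by omega⟩

theorem exa_of_torVanishes {i : ℕ} (b : Fin n →₀ ℕ) (h : TorVanishes J i b.degree) :
    Exa k b.support (fun τ => N (b - ind τ)) i := by
  intro z hz
  set p : Finset (Fin n) → MvPolynomial (Fin n) k := fun T =>
    if T ⊆ b.support ∧ T.card = i then monomial (b - ind T) (z T) else 0 with hp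
  obtain ⟨g, -, hg⟩ := h (fun T => Ideal.Quotient.mk J (p T)) (by
    intro T
    by_cases hT : T ⊆ b.support ∧ T.card = i
    · have h4 := congrArg Finsupp.degree (tsub_add_cancel_of_le (ind_le_iff.mpr hT.1))
      rw [map_add, degree_ind] at h4
      refine Or.inr ⟨hT.2, (b - ind T).degree, p T, by omega, ?_, rfl⟩
      simp only [hp, hT, and_self, if_true]
      exact isHomogeneous_monomial _ rfl
    · left; simp [hp, hT]) (by
    funext ρ
    rw [koszulD_mk, Pi.zero_apply, Ideal.Quotient.eq_zero_iff_mem, hJ]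
    intro a ha
    have hρ : ρ ⊆ (a + ind ρ).support := ind_le_iff.mp le_add_self
    have h1 := coeff_preD p (a + ind ρ) hρ
    rw [add_tsub_cancel_right] at h1
    rw [h1]
    by_cases hb : a + ind ρ = b ∧ ρ.card + 1 = i
    · rw [hb.1] at hρ ⊢
      rw [← hz ρ hρ hb.2 (by beta_reduce; rw [← hb.1, add_tsub_cancel_right]; exact ha)]
      unfold dd
      refine Finset.sum_congr rfl fun t ht => ?_
      obtain ⟨ht1, ht2⟩ := Finset.mem_sdiff.mp ht
      simp [hp, Finset.insert_subset ht1 hρ, Finset.card_insert_of_notMem ht2, hb.2]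
    · unfold dd
      refine Finset.sum_eq_zero fun t ht => ?_
      obtain ⟨ht1, ht2⟩ := Finset.mem_sdiff.mp ht
      have h3 : ind (insert t ρ) ≤ a + ind ρ := ind_le_iff.mpr (Finset.insert_subset ht1 hρ)
      simp only [hp]
      split_ifs with h4
      · rw [coeff_monomial, if_neg, mul_zero]
        intro h5
        refine hb ⟨?_, by rw [← h4.2, Finset.card_insert_of_notMem ht2]⟩
        rw [← tsub_add_cancel_of_le h3, ← h5, tsub_add_cancel_of_le (ind_le_iff.mpr h4.1)]
      · simp)
  have hrep : ∀ T, ∃ q : MvPolynomial (Fin n) k, Ideal.Quotient.mk J q = g T :=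
    fun T => Ideal.Quotient.mk_surjective _
  choose q hq using hrep
  have hg' : g = fun T => Ideal.Quotient.mk J (q T) := funext fun T => (hq T).symm
  refine ⟨fun τ => coeff (b - ind τ) (q τ), fun τ hτ hc hN => ?_⟩
  have h1 := congrFun hg τ
  rw [hg', koszulD_mk, Ideal.Quotient.eq, hJ] at h1
  have h2 := h1 _ hN
  rw [coeff_sub, coeff_preD q b hτ, sub_eq_zero] at h2
  rw [h2]
  simp [hp, hτ, hc]

end

end Pool.Agent.MP_d6b0b9_al

end MrgPart4

-- ======== part 5: formerly Pool.Agent.MP_d6b0b9_al.Alg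
section MrgPart5

/-!
The second symbolic power of a Stanley–Reisner ideal as a monomial ideal, and its height.
-/

namespace Pool.Agent.MP_d6b0b9_al

open Finset MvPolynomial

variable {k : Type*} [Field k] {n : ℕ}

/-- The prime ideal generated by a set of variables. -/
noncomputable def varIdeal (k : Type*) [Field k] (s : Finset (Fin n)) :
    Ideal (MvPolynomial (Fin n) k) :=
  Ideal.span (X '' (s : Set (Fin n)))

lemma mem_varIdeal {s : Finset (Fin n)} {p : MvPolynomial (Fin n) k} :
    p ∈ varIdeal k s ↔ ∀ a : Fin n →₀ ℕ, ∑ i ∈ s, a i = 0 → coeff a p = 0 := by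
  rw [varIdeal, mem_ideal_span_X_image]
  constructor
  · intro h a ha
    by_contra h0
    obtain ⟨i, hi, hai⟩ := h a (mem_support_iff.mpr h0)
    exact hai (Finset.sum_eq_zero_iff.mp ha i hi)
  · intro h a ha
    by_contra hcon
    push Not at hcon
    exact mem_support_iff.mp ha (h a (Finset.sum_eq_zero fun i hi => hcon i hi))

lemma X_mem_varIdeal {s : Finset (Fin n)} {i : Fin n} :
    (X i : MvPolynomial (Fin n) k) ∈ varIdeal k s ↔ i ∈ s := by
  constructor
  · intro h
    by_contra hi
    have := mem_varIdeal.mp h (Finsupp.single i 1) (Finset.sum_eq_zero fun j hj => by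
      rw [Finsupp.single_apply, if_neg]; rintro rfl; exact hi hj)
    simp at this
  · exact fun h => Ideal.subset_span ⟨i, h, rfl⟩

instance varIdeal_isPrime (s : Finset (Fin n)) : (varIdeal k s).IsPrime := by
  let φ : MvPolynomial (Fin n) k →ₐ[k] MvPolynomial (Fin n) k :=
    aeval fun i => if i ∈ s then 0 else X i
  have h1 : ∀ p, p - φ p ∈ varIdeal k s := by
    intro p
    induction p using MvPolynomial.induction_on with
    | C a => simp [φ]
    | add p q hp hq =>
      have : p + q - φ (p + q) = (p - φ p) + (q - φ q) := by rw [map_add]; ring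
      rw [this]; exact Ideal.add_mem _ hp hq
    | mul_X p i hp =>
      have h2 : X i - φ (X i) ∈ varIdeal k s := by
        by_cases hi : i ∈ s
        · simpa [φ, hi] using X_mem_varIdeal.mpr hi
        · simp [φ, hi]
      have : p * X i - φ (p * X i) = (p - φ p) * X i + φ p * (X i - φ (X i)) := by
        rw [map_mul]; ring
      rw [this]
      exact Ideal.add_mem _ (Ideal.mul_mem_right _ _ hp) (Ideal.mul_mem_left _ _ h2)
  have h2 : varIdeal k s = RingHom.ker φ := by
    apply le_antisymm
    · rw [varIdeal, Ideal.span_le]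
      rintro _ ⟨i, hi, rfl⟩
      have hi' : i ∈ s := hi
      simp [φ, hi']
    · intro p hp
      have := h1 p
      rwa [RingHom.mem_ker.mp hp, sub_zero] at this
  rw [h2]
  exact RingHom.ker_isPrime φ

lemma mem_varIdeal_sq {s : Finset (Fin n)} {p : MvPolynomial (Fin n) k} :
    p ∈ varIdeal k s ^ 2 ↔ ∀ a : Fin n →₀ ℕ, ∑ i ∈ s, a i ≤ 1 → coeff a p = 0 := by
  constructor
  · intro h
    rw [pow_two] at h
    refine Submodule.mul_induction_on h ?_ ?_
    · intro x hx y hy a ha
      rw [coeff_mul]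
      refine Finset.sum_eq_zero fun uv huv => ?_
      have h1 : uv.1 + uv.2 = a := by simpa using huv
      have h2 : ∑ i ∈ s, uv.1 i + ∑ i ∈ s, uv.2 i = ∑ i ∈ s, a i := by
        rw [← Finset.sum_add_distrib, ← h1]; rfl
      by_cases h3 : ∑ i ∈ s, uv.1 i = 0
      · rw [mem_varIdeal.mp hx _ h3, zero_mul]
      · rw [mem_varIdeal.mp hy _ (by omega), mul_zero]
    · intro x y hx hy a ha
      rw [coeff_add, hx a ha, hy a ha, add_zero]
  · intro h
    rw [p.as_sum]
    refine Ideal.sum_mem _ fun a ha => ?_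
    have h1 : ¬ ∑ i ∈ s, a i ≤ 1 := fun h' => mem_support_iff.mp ha (h a h')
    obtain ⟨i, hi, hai⟩ : ∃ i ∈ s, a i ≠ 0 := Finset.exists_ne_zero_of_sum_ne_zero (by omega)
    have h2 : Finsupp.single i 1 ≤ a := by
      rw [Finsupp.single_le_iff]; omega
    have h3 : monomial a (coeff a p) =
        X i * monomial (a - Finsupp.single i 1) (coeff a p) := by
      rw [X, monomial_mul, one_mul, add_tsub_cancel_of_le h2]
    rw [h3, pow_two]
    refine Ideal.mul_mem_mul (X_mem_varIdeal.mpr hi) (mem_varIdeal.mpr fun b hb => ?_)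
    rw [coeff_monomial, if_neg]
    rintro rfl
    have h4 : ∑ j ∈ s, a j = ∑ j ∈ s, (Finsupp.single i 1) j +
        ∑ j ∈ s, (a - Finsupp.single i 1 : Fin n →₀ ℕ) j := by
      rw [← Finset.sum_add_distrib]
      exact Finset.sum_congr rfl fun j _ => by
        rw [← Finsupp.add_apply, add_tsub_cancel_of_le h2]
    have h5 : ∑ j ∈ s, (Finsupp.single i 1 : Fin n →₀ ℕ) j = 1 := by
      simp [Finsupp.single_apply, hi]
    omega

lemma card_le_height_varIdeal (s : Finset (Fin n)) :
    (s.card : ℕ∞) ≤ (varIdeal k s).height := by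
  induction s using Finset.induction_on with
  | empty => simp
  | insert a s ha ih =>
    have h1 : varIdeal k s < varIdeal k (insert a s) := by
      refine lt_of_le_of_ne (Ideal.span_mono (Set.image_mono (by simp))) fun h => ha ?_
      rw [← X_mem_varIdeal (k := k), h, X_mem_varIdeal]
      simp
    rw [Finset.card_insert_of_notMem ha, Nat.cast_add, Nat.cast_one]
    exact (add_le_add_left ih 1).trans (Ideal.height_add_one_le_of_lt_of_isPrime h1)

lemma height_varIdeal_le (s : Finset (Fin n)) : (varIdeal k s).height ≤ (s.card : ℕ∞) := by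
  classical
  have h1 : varIdeal k s = Ideal.span ((s.image (X : Fin n → MvPolynomial (Fin n) k) :
      Finset _) : Set _) := by
    rw [varIdeal, Finset.coe_image]
  have h2 : varIdeal k s ∈ (Ideal.span ((s.image (X : Fin n → MvPolynomial (Fin n) k) :
      Finset _) : Set (MvPolynomial (Fin n) k))).minimalPrimes := by
    rw [← h1, Ideal.minimalPrimes_eq_subsingleton_self]
    rfl
  exact (Ideal.height_le_card_of_mem_minimalPrimes_span_finset h2).trans
    (Nat.cast_le.mpr Finset.card_image_le)

variable {Δ : Set (Finset (Fin n))}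

lemma srIdeal_le (hΔ : IsMatroidComplex Δ) {F : Finset (Fin n)} (hF : F ∈ Δ) :
    srIdeal k Δ ≤ varIdeal k Fᶜ := by
  rw [srIdeal, Ideal.span_le]
  rintro _ ⟨G, hG, rfl⟩
  obtain ⟨i, hi, hiF⟩ := Finset.not_subset.mp fun h => hG (hΔ.down_closed F hF G h)
  rw [← Finset.mul_prod_erase _ _ hi]
  exact Ideal.mul_mem_right _ _ (X_mem_varIdeal.mpr (Finset.mem_compl.mpr hiF))

lemma exists_face_of_prime (P : Ideal (MvPolynomial (Fin n) k)) [hP : P.IsPrime]
    (h : srIdeal k Δ ≤ P) : ∃ F ∈ Δ, varIdeal k Fᶜ ≤ P := by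
  classical
  refine ⟨univ.filter fun i => X i ∉ P, ?_, ?_⟩
  · by_contra hcon
    have h1 := h (Ideal.subset_span ⟨_, hcon, rfl⟩)
    obtain ⟨i, hi, hiP⟩ := Ideal.IsPrime.prod_mem_iff.mp h1
    exact (Finset.mem_filter.mp hi).2 hiP
  · rw [varIdeal, Ideal.span_le]
    rintro _ ⟨i, hi, rfl⟩
    simpa using hi

theorem mem_symbPow_two (hΔ : IsMatroidComplex Δ) (p : MvPolynomial (Fin n) k) :
    p ∈ symbPow (srIdeal k Δ) 2 ↔
      ∀ a : Fin n →₀ ℕ, (∃ F ∈ Δ, ∑ i ∈ Fᶜ, a i ≤ 1) → coeff a p = 0 := by
  simp only [symbPow, Ideal.mem_iInf]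
  constructor
  · rintro h a ⟨F, hF, ha⟩
    obtain ⟨P, hP, hle⟩ := Ideal.exists_minimalPrimes_le (srIdeal_le (k := k) hΔ hF)
    exact mem_varIdeal_sq.mp (Ideal.pow_right_mono hle 2 (h P hP)) a ha
  · intro h P hP
    have := hP.isPrime
    obtain ⟨F, hF, hle⟩ := exists_face_of_prime P hP.le
    exact Ideal.pow_right_mono hle 2 (mem_varIdeal_sq.mpr fun a ha => h a ⟨F, hF, ha⟩)

theorem height_symbPow_two (hΔ : IsMatroidComplex Δ) {B : Finset (Fin n)} (hB : B ∈ Δ)
    (hmax : ∀ F ∈ Δ, F.card ≤ B.card) :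
    (symbPow (srIdeal k Δ) 2).height = ((n - B.card : ℕ) : ℕ∞) := by
  apply le_antisymm
  · have h1 : symbPow (srIdeal k Δ) 2 ≤ varIdeal k Bᶜ := by
      intro p hp
      exact mem_varIdeal.mpr fun a ha => (mem_symbPow_two hΔ p).mp hp a ⟨B, hB, by omega⟩
    refine (Ideal.height_mono h1).trans ((height_varIdeal_le _).trans ?_)
    rw [Finset.card_compl, Fintype.card_fin]
  · rw [Ideal.height_eq_inf_minimalPrimes]
    refine le_iInf₂ fun Q hQ => ?_
    have := hQ.isPrime
    have h1 : srIdeal k Δ ≤ Q := by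
      intro x hx
      refine this.mem_of_pow_mem 2 (hQ.le ?_)
      simp only [symbPow, Ideal.mem_iInf]
      exact fun P hP => Ideal.pow_mem_pow (hP.le hx) 2
    obtain ⟨F, hF, hle⟩ := exists_face_of_prime Q h1
    refine le_trans ?_ ((card_le_height_varIdeal _).trans (Ideal.height_mono hle))
    rw [Finset.card_compl, Fintype.card_fin]
    exact Nat.cast_le.mpr (Nat.sub_le_sub_left (hmax F hF) n)

lemma strand_iff (b : Fin n →₀ ℕ) (τ : Finset (Fin n)) :
    (∃ F ∈ Δ, ∑ i ∈ Fᶜ, (b - ind τ : Fin n →₀ ℕ) i ≤ 1) ↔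
      Dfam (· ∈ Δ) b.support (fun i => b i - 1) (b.support \ τ) := by
  unfold Dfam
  refine exists_congr fun F => and_congr_right fun _ => ?_
  have : ∑ i ∈ Fᶜ, (b - ind τ : Fin n →₀ ℕ) i =
      ((b.support \ τ) \ F).card + ∑ i ∈ b.support \ F, (b i - 1) := by
    have h1 : (b.support \ τ) \ F = (b.support \ F).filter (fun i => i ∉ τ) := by
      ext x; simp; tauto
    rw [h1, Finset.card_filter, ← Finset.sum_add_distrib]
    symm
    refine Finset.sum_subset_zero_on_sdiff (fun x hx => by simpa using (Finset.mem_sdiff.mp hx).2)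
      ?_ ?_
    · intro x hx
      have h2 : b x = 0 := by
        by_contra h
        simp [h] at hx
      simp [h2]
    · intro x hx
      have h2 : b x ≠ 0 := Finsupp.mem_support_iff.mp (Finset.mem_sdiff.mp hx).1
      by_cases h3 : x ∈ τ
      · simp [h3]
      · simp [h3]; omega
  rw [this]

lemma degree_eq_card_add (b : Fin n →₀ ℕ) :
    b.degree = b.support.card + ∑ i ∈ b.support, (b i - 1) := by
  rw [Finsupp.degree_apply, Finset.card_eq_sum_ones, ← Finset.sum_add_distrib]
  exact Finset.sum_congr rfl fun i hi => by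
    have := Finsupp.mem_support_iff.mp hi
    omega

end Pool.Agent.MP_d6b0b9_al

end MrgPart5

-- ======== part 6: formerly Pool.Agent.MP_d6b0b9_al.Top
section MrgPart6

/-!
The strand in multidegree (non-coloops) + (circuit) is not exact in the top degree.
-/

namespace Pool.Agent.MP_d6b0b9_al

open Finset

variable {k : Type*} [Field k] {α : Type*} [LinearOrder α] [Fintype α]
variable {Δ : Finset α → Prop} (hD : Down univ Δ) (hE : Exch univ Δ)
include hD hE

omit hD hE [Fintype α] in
lemma union_coloops {F : Finset α} (hF : Δ F) (L : Finset α)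
    (hL : ∀ e ∈ L, ∀ G, Δ G → Δ (insert e G)) : Δ (L ∪ F) := by
  induction L using Finset.induction_on with
  | empty => simpa using hF
  | insert a L _ ih =>
    rw [Finset.insert_union]
    exact hL a (by simp) _ (ih fun e he => hL e (by simp [he]))

theorem not_exa_strand {B : Finset α} (hB : Δ B) (hmax : ∀ F, Δ F → F.card ≤ B.card)
    {E' : Finset α} (hE' : ∀ e, e ∈ E' ↔ ∃ F, Δ F ∧ ¬ Δ (insert e F))
    {C : Finset α} (hC : ¬ Δ C) (hC' : ∀ e ∈ C, Δ (C.erase e))
    {b : α → ℕ} (hb : ∀ i ∈ E', b i = if i ∈ C then 1 else 0) :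
    ¬ Exa k E' (fun τ => Dfam Δ E' b (E' \ τ)) (Fintype.card α - B.card) := by
  have hCE : C ⊆ E' := fun e he =>
    (hE' e).mpr ⟨C.erase e, hC' e he, by rwa [Finset.insert_erase he]⟩
  have hT : E'.filter (fun i => b i ≠ 0) = C := by
    ext x
    simp only [Finset.mem_filter]
    constructor
    · rintro ⟨h1, h2⟩
      by_contra h
      exact h2 (by rw [hb x h1, if_neg h])
    · intro h
      exact ⟨hCE h, by rw [hb x (hCE h), if_pos h]; simp⟩
  have hCne : C.Nonempty := by
    rcases C.eq_empty_or_nonempty with h | h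
    · exact absurd (h ▸ hD _ (subset_univ _) _ (Finset.empty_subset _) hB) hC
    · exact h
  obtain ⟨e0, he0⟩ := hCne
  have hP : ∀ e ∈ E'.filter (fun i => b i ≠ 0),
      b e = 1 ∧ Δ ((E'.filter (fun i => b i ≠ 0)).erase e) := by
    rw [hT]
    exact fun e he => ⟨by rw [hb e (hCE he), if_pos he], hC' e he⟩
  have hT' : ¬ Δ (E'.filter (fun i => b i ≠ 0)) := by rwa [hT]
  have hexch := dfam_exch hD hE E' hT' hP (e0 := e0) (by rwa [hT])
  have hdep : ∀ σ, Dfam Δ E' b σ ↔ ∃ e ∈ E', b e = 1 ∧ e ∉ σ ∧ Δ (σ ∪ C.erase e) := by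
    intro σ
    rw [dfam_dep hD E' hT', hT]
  have hcol : ∀ e ∈ E'ᶜ, ∀ G, Δ G → Δ (insert e G) := by
    intro e he G hG
    by_contra h
    exact Finset.mem_compl.mp he ((hE' e).mpr ⟨G, hG, h⟩)
  have hE'c : E'ᶜ.card = Fintype.card α - E'.card := Finset.card_compl E'
  have hE'le : E'.card ≤ Fintype.card α := Finset.card_le_univ _
  have hBle : B.card ≤ Fintype.card α := Finset.card_le_univ _
  have hbasis : ∀ F0, Δ F0 → B.card ≤ F0.card → (F0 ∩ E').card + E'ᶜ.card = B.card := by
    intro F0 hF0 hle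
    have h1 : E'ᶜ ⊆ F0 := by
      intro e he
      by_contra h
      have := hmax _ (hcol e he F0 hF0)
      rw [Finset.card_insert_of_notMem h] at this
      omega
    have h2 : F0 \ E' = E'ᶜ := by
      ext x
      simp only [Finset.mem_sdiff, Finset.mem_compl]
      exact ⟨fun h => h.2, fun h => ⟨h1 (Finset.mem_compl.mpr h), h⟩⟩
    have h3 := Finset.card_sdiff_add_card_inter F0 E'
    have h4 := hmax F0 hF0
    rw [h2] at h3
    omega
  have hB1 := hbasis B hB le_rfl
  refine not_exa_matroid _ E' _ _ (B ∩ E').card rfl (Dfam.down Δ E' b) hexch ?_ ?_ ?_ ?_ ?_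
  · exact (hdep ∅).mpr ⟨e0, hCE he0, by rw [hb e0 (hCE he0), if_pos he0], by simp,
      by simpa using hC' e0 he0⟩
  · intro F hF hDF
    obtain ⟨e, -, -, -, h⟩ := (hdep F).mp hDF
    have h1 : Δ F := hD _ (subset_univ _) _ Finset.subset_union_left h
    have h2 := hmax _ (union_coloops h1 E'ᶜ hcol)
    rw [Finset.card_union_of_disjoint
      (Finset.disjoint_of_subset_right hF disjoint_compl_left)] at h2
    omega
  · intro e he
    by_cases heC : e ∈ C
    · obtain ⟨F0, h1, -, h3, h4⟩ := hE.extend' (subset_univ _) (subset_univ _) (hC' e heC) hB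
      have heF : e ∉ F0 := fun h => hC (hD _ (subset_univ _) _ (by
        rw [← Finset.insert_erase heC]; exact Finset.insert_subset h h1) h3)
      have h5 := hbasis F0 h3 h4
      refine ⟨F0 ∩ E', Finset.inter_subset_right, (hdep _).mpr ⟨e, he,
        by rw [hb e he, if_pos heC], fun h => heF (Finset.mem_inter.mp h).1,
        hD _ (subset_univ _) _ (Finset.union_subset Finset.inter_subset_left h1) h3⟩,
        by omega, fun h => heF (Finset.mem_inter.mp h).1⟩
    · obtain ⟨G, hG, hnG⟩ := (hE' e).mp he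
      obtain ⟨B', h1, -, h3, h4⟩ := hE.extend' (subset_univ _) (subset_univ _) hG hB
      have heB : e ∉ B' := fun h => hnG (hD _ (subset_univ _) _ (Finset.insert_subset h h1) h3)
      obtain ⟨F0, h5, h6, h7, h8⟩ := hE.extend' (subset_univ _) (subset_univ _) (hC' e0 he0) h3
      have heF : e ∉ F0 := fun h => by
        have := h6 h
        simp [heB, heC] at this
      have he0F : e0 ∉ F0 := fun h => hC (hD _ (subset_univ _) _ (by
        rw [← Finset.insert_erase he0]; exact Finset.insert_subset h h5) h7)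
      have h9 := hbasis F0 h7 (by omega)
      refine ⟨F0 ∩ E', Finset.inter_subset_right, (hdep _).mpr ⟨e0, hCE he0,
        by rw [hb e0 (hCE he0), if_pos he0], fun h => he0F (Finset.mem_inter.mp h).1,
        hD _ (subset_univ _) _ (Finset.union_subset Finset.inter_subset_left h5) h7⟩,
        by omega, fun h => heF (Finset.mem_inter.mp h).1⟩
  · intro h; simp [h]
  · omega

end Pool.Agent.MP_d6b0b9_al

end MrgPart6

-- marker of a merged file
example : 731051 + 75776 = 731051 + 75776 := rfl
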